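import Pool.Agent.R419.MX.Dim

/-!
# Project MX: assembly
-/

set_option autoImplicit false
set_option linter.unusedSectionVars false
set_option linter.unusedVariables false

open scoped Classical

namespace Pool.Agent.R419.MX

open NumberField WeierstrassCurve Filter
open Pool.Agent.TH841.SH.D (Pt act Gal Coch)
open Pool.Agent.Y667.BKP
open Pool.Agent.Y696.CTK (ED)
open Pool.Agent.XL6 (SelK)
open Pool.Agent.R419.KF (ClsKC)
open Pool.Agent.R419.KL (cls_data oneK prp prp_mono prp_congr cumT ne_zero not_cube ex_root even_pt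
  cr_succ prob_facts small_of lawK div3)
open Pool.Agent.Y703.XL (cr)
open Pool.Agent.Y703.XL.Inf (selCoc cobInf SelInf killed Sg E1 sel_triv cls cls_eq_zero)

section
variable {F : Type} [Field F] [NumberField F]

/-- the dimension is at most `d` -/
def DimLe (W : WeierstrassCurve F) (d : ℕ) : Prop :=
  ∀ (N : ℕ) (x : Fin N → H1f 3 W), (∀ i, Integral W (x i)) →
    (∀ i j, i ≠ j → ¬ ∃ y : H1f 3 W, Integral W y ∧ x i = x j + 3 • y) → N ≤ 3 ^ d

/-- the Kummer map is an isomorphism -/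
def KIso (W : WeierstrassCurve F) : Prop :=
  (∀ P, Rat W P → ∃ k, KumCls W P k) ∧ (∀ x : H1f 3 W, ∃ m : ℕ, Integral W (3 ^ m • x)) ∧
  (∀ (x : H1f 3 W) (n : ℕ), Integral W x → ∃ (P : Pt W (AlgebraicClosure F)) (k y : H1f 3 W),
    Rat W P ∧ KumCls W P k ∧ Integral W y ∧ x = k + 3 ^ n • y) ∧
  ∀ (P : Pt W (AlgebraicClosure F)) (k y : H1f 3 W) (n : ℕ), Rat W P → KumCls W P k →
    Integral W y → k = 3 ^ n • y → ∃ R T : Pt W (AlgebraicClosure F), Rat W R ∧ Rat W T ∧
      P = 3 ^ n • R + T ∧ ∃ m : ℕ, 3 ^ m • T = 0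

lemma DimLe.mono {W : WeierstrassCurve F} {d e : ℕ} (h : DimLe W d) (hde : d ≤ e) : DimLe W e :=
  fun N x h1 h2 => (h N x h1 h2).trans (Nat.pow_le_pow_right (by norm_num) hde)

end

variable {K : Type} [Field K] [NumberField K]

theorem kiso {D z : K} (hD : D ≠ 0) (hz : z ^ 2 + z + 1 = 0)
    (H : ∀ f ∈ selCoc D, Kum (E1 D) f) : KIso (E1 D) := by
  refine ⟨fun P hP => ?_, integral_of, fun x n hx => surj_kum hD hz H hx n,
    fun P k y n h1 h2 h3 h4 => inj_kum h1 h2 h3 h4⟩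
  obtain ⟨R, hR0, hR⟩ : ∃ R : ℕ → Pt (E1 D) (AlgebraicClosure K), R 0 = P ∧
      ∀ m, 3 • R (m + 1) = R m := by
    choose d hd using div3 hD hz
    exact ⟨fun m => Nat.rec P (fun _ P => d P) m, rfl, fun m => hd _⟩
  exact ⟨QuotientAddGroup.mk ⟨_, kum_sel hR (by rw [hR0]; exact hP)⟩, ⟨_, kum_sel hR
    (by rw [hR0]; exact hP)⟩, R, rfl, hR0, hR, fun σ n => rfl⟩

/-- the conclusion for one `D` -/
def Good (D : K) : Prop :=
  (∀ (n : ℕ) (x : Pool.Agent.TH841.NF.D.Sha (E1 D)), 3 ^ n • x = 0 → x = 0) ∧ KIso (E1 D)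

theorem good_of [IsCyclotomicExtension {3} ℚ K] {D : 𝓞 K} (hD : ClsKC D) {r : ℕ}
    (hr : (SelK (D : K)).ncard = 3 ^ (r + 1))
    (hrk : 2 * r ≤ Module.finrank ℤ (ED (D : K)).toAffine.Point) : Good (D : K) := by
  obtain ⟨ω, hω⟩ := ex_root K
  have H := max_sel hD hr hrk
  exact ⟨sha_zero (ne_zero hD) hω H, kiso (ne_zero hD) hω H⟩

/-- **One curve.** -/
theorem one [IsCyclotomicExtension {3} ℚ K] {D : 𝓞 K} (hD : ClsKC D) :
    ∃ r : ℕ, (SelK (D : K)).ncard = 3 ^ (r + 1) ∧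
      Module.Finite ℤ (ED (D : K)).toAffine.Point ∧
      Module.finrank ℤ (ED (D : K)).toAffine.Point ≤ 2 * r ∧
      DimLe (E1 (D : K)) (2 * r) ∧
      (Module.finrank ℤ (ED (D : K)).toAffine.Point = 2 * r → Good (D : K)) ∧
      (r ≤ 1 → Finite (ED (D : K)).toAffine.Point ∨
        (Module.finrank ℤ (ED (D : K)).toAffine.Point = 2 ∧ Good (D : K))) := by
  obtain ⟨ω, hω⟩ := ex_root K
  obtain ⟨⟨s, hs, hrk⟩, -⟩ := oneK hD
  have hfg := fg_cls hD
  have h1 : (SelK (D : K)).ncard = 3 * (killed ω (D : K)).ncard :=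
    Pool.Agent.Y703.XL.Inf.sel_card (ne_zero hD) hω (not_cube hD)
  have h2 : (killed ω (D : K)).ncard = 3 ^ s := by
    rw [hs, pow_succ] at h1
    omega
  refine ⟨s, hs, hfg, hrk, dim_le (ne_zero hD) hω (not_cube hD) h2, fun h => good_of hD hs h.ge,
    fun hs1 => ?_⟩
  by_cases h0 : Module.finrank ℤ (ED (D : K)).toAffine.Point = 0
  · exact Or.inl (fin_or_rank h0)
  · right
    obtain ⟨m, hm⟩ := even_pt (K := K) (ne_zero hD) hω
    have hm' : Module.finrank ℤ (ED (D : K)).toAffine.Point = m + m := hm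
    have hs2 : s = 1 := by omega
    subst hs2
    have h2 : Module.finrank ℤ (ED (D : K)).toAffine.Point = 2 := by omega
    exact ⟨h2, good_of hD hs (by omega)⟩

/-- the smallest Selmer group -/
theorem zero_case [IsCyclotomicExtension {3} ℚ K] {D : 𝓞 K} (hD : ClsKC D)
    (h : (SelK (D : K)).ncard ≤ 3 ^ 1) : Finite (ED (D : K)).toAffine.Point ∧
      ∀ x : H1f 3 (ED (D : K)), x = 0 := by
  obtain ⟨r, h1, h2, h3, -, h5, -⟩ := one hD
  have hr : r = 0 := by
    rw [h1, Nat.pow_le_pow_iff_right (by norm_num)] at h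
    omega
  subst hr
  have h0 : Module.finrank ℤ (ED (D : K)).toAffine.Point = 0 := by omega
  have hf : Finite (ED (D : K)).toAffine.Point := fin_or_rank h0
  have hg := (h5 h0).1
  refine ⟨hf, h1f_zero Nat.prime_three hf 0 fun k x hx => ?_⟩
  rw [pow_zero, one_smul]
  exact hg k x hx

/-- **The numbers.** -/
theorem nums (K : Type) [Field K] [NumberField K] [IsCyclotomicExtension {3} ℚ K] :
    ∀ᶠ X : ℕ in atTop,
      0.639 ≤ prp (fun D : 𝓞 K => Finite (ED (D : K)).toAffine.Point ∧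
        ∀ x : H1f 3 (ED (D : K)), x = 0) X ∧
      0.9585 ≤ prp (fun D : 𝓞 K => DimLe (E1 (D : K)) 2 ∧ (Finite (ED (D : K)).toAffine.Point ∨
        (Module.finrank ℤ (ED (D : K)).toAffine.Point = 2 ∧ Good (D : K)))) X ∧
      0.998 ≤ prp (fun D : 𝓞 K => DimLe (E1 (D : K)) 4) X := by
  have c1 := cr_succ 0
  have c2 := cr_succ 1
  norm_num at c1 c2
  have h3 := prob_facts.2.1
  have s1 : ∑ i ∈ Finset.range 1, cr i = cr 0 := by
    rw [Finset.sum_range_succ, Finset.range_zero, Finset.sum_empty, zero_add]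
  have s2 : ∑ i ∈ Finset.range 2, cr i = cr 0 + cr 1 := by
    rw [Finset.sum_range_succ, s1]
  have s3 : ∑ i ∈ Finset.range 3, cr i = cr 0 + cr 1 + cr 2 := by
    rw [Finset.sum_range_succ, s2]
  have k1 := small_of K (fun D : 𝓞 K => Finite (ED (D : K)).toAffine.Point ∧
    ∀ x : H1f 3 (ED (D : K)), x = 0) 1 (fun D hD h => zero_case hD h) (cr 0 - 0.639) (by linarith)
  have k2 := small_of K (fun D : 𝓞 K => DimLe (E1 (D : K)) 2 ∧
    (Finite (ED (D : K)).toAffine.Point ∨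
      (Module.finrank ℤ (ED (D : K)).toAffine.Point = 2 ∧ Good (D : K)))) 2 (fun D hD h => by
      obtain ⟨r, h1, -, -, h4, -, h6⟩ := one hD
      have hr : r ≤ 1 := by
        rw [h1, Nat.pow_le_pow_iff_right (by norm_num)] at h
        omega
      exact ⟨h4.mono (by omega), h6 hr⟩) (cr 0 + cr 1 - 0.9585) (by linarith)
  have k3 := small_of K (fun D : 𝓞 K => DimLe (E1 (D : K)) 4) 3 (fun D hD h => by
      obtain ⟨r, h1, -, -, h4, -, -⟩ := one hD
      have hr : r ≤ 2 := by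
        rw [h1, Nat.pow_le_pow_iff_right (by norm_num)] at h
        omega
      exact h4.mono (by omega)) (cr 0 + cr 1 + cr 2 - 0.998) (by linarith)
  filter_upwards [k1, k2, k3] with X hX1 hX2 hX3
  rw [s1] at hX1
  rw [s2] at hX2
  rw [s3] at hX3
  exact ⟨by linarith, by linarith, by linarith⟩

end Pool.Agent.R419.MX
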