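import Pool.Agent.R419.MX.Iso

/-!
# Project MX: the dimension of the Bloch–Kato Selmer group
-/

set_option autoImplicit false
set_option linter.unusedSectionVars false
set_option linter.unusedVariables false

open scoped Classical

namespace Pool.Agent.R419.MX

open NumberField WeierstrassCurve
open Pool.Agent.TH841.SH.D (Pt act Gal Coch)
open Pool.Agent.Y667.BKP
open Pool.Agent.Y703.XL.Inf (E1 lc_act act_act act_mul selCoc cobInf SelInf killed cls cls_eq_zero)
open Pool.Agent.R419.KL (tor3 Sel3 sel3_card sel3_facts div3)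

variable {K : Type} [Field K] [NumberField K] {D z : K}

/-- coboundaries satisfy the local conditions -/
lemma cob_sel {x : PSeq (E1 D)} (hx : IsV 3 (E1 D) x) :
    IsSelV 3 (E1 D) (fun σ n => act (E1 D) σ.toAlgHom (x n) - x n) := by
  have hloc : ∀ (M : Type) [Field M] [Algebra K M], LocKum 3 (E1 D) M
      (fun σ n => act (E1 D) σ.toAlgHom (x n) - x n) := by
    intro M _ _ ι
    refine ⟨fun n => act (E1 D) ι (x n), fun n => ?_, fun τ σ h n => ?_⟩
    · rw [← map_nsmul, (hx n).1]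
    · rw [map_sub, act_act, act_act]
      have e1 : ι.comp σ.toAlgHom = (τ.toAlgHom.restrictScalars K).comp ι :=
        AlgHom.ext fun x => (h x).symm
      rw [e1]
  refine ⟨⟨fun n => (lc_act (x n)).sub (IsLocallyConstant.const (x n)), fun σ n => ⟨?_, ?_⟩,
    fun σ τ n => ?_⟩, fun v => hloc _, fun v => hloc _⟩
  · show 3 • (act (E1 D) σ.toAlgHom (x (n + 1)) - x (n + 1)) = _
    rw [smul_sub, ← map_nsmul, (hx n).1]
  · obtain ⟨m, hm⟩ := (hx n).2
    refine ⟨m, ?_⟩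
    show (3 ^ m : ℕ) • (act (E1 D) σ.toAlgHom (x n) - x n) = 0
    rw [smul_sub, ← map_nsmul, hm, map_zero, sub_zero]
  · show act (E1 D) (σ * τ).toAlgHom (x n) - x n = (act (E1 D) σ.toAlgHom (x n) - x n) +
      act (E1 D) σ.toAlgHom (act (E1 D) τ.toAlgHom (x n) - x n)
    rw [map_sub, act_mul]
    abel

/-- **The bound for the dimension.** -/
theorem dim_le (hD : D ≠ 0) (hz : z ^ 2 + z + 1 = 0) (hc : ∀ t : K, t ^ 3 ≠ D) {r : ℕ}
    (hr : (killed z D).ncard = 3 ^ r) (N : ℕ) (x : Fin N → H1f 3 (E1 D))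
    (hx : ∀ i, Integral (E1 D) (x i))
    (hne : ∀ i j, i ≠ j → ¬ ∃ y : H1f 3 (E1 D), Integral (E1 D) y ∧ x i = x j + 3 • y) :
    N ≤ 3 ^ (2 * r) := by
  choose c hc1 hc2 using hx
  have hsel : ∀ i, IsSelV 3 (E1 D) (c i).1 := fun i => (c i).2
  let f : Fin N → selCoc D := fun i => ⟨fun σ => (c i).1 σ 1, coord_sha (hsel i) 1,
    fun σ => ((hsel i).1.2.1 σ 1).2⟩
  have hf3 : ∀ i, 3 • cls (f i) = 0 := by
    intro i
    rw [Pool.Agent.R419.KL.cls_nsmul, cls_eq_zero]
    have h1 : (3 • f i).1 = (0 : Coch (E1 D)) := by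
      funext σ
      show 3 • (c i).1 σ 1 = 0
      have h2 := ((hsel i).1.2.1 σ 0).1
      rw [zero_add] at h2
      rw [h2]
      exact hc2 i σ
    rw [h1]
    exact (cobInf D).zero_mem
  obtain ⟨s, hs, -, hs2⟩ := sel3_facts hD hz hc hr
  have hcard : Nat.card (tor3 D) = 3 ^ s := by
    have h1 := sel3_card hD hz hc
    rw [hs, pow_succ] at h1
    omega
  have hfin : Finite (tor3 D) := Nat.finite_of_card_ne_zero (by rw [hcard]; positivity)
  have hinj : Function.Injective (fun i => (⟨cls (f i), hf3 i⟩ : tor3 D)) := by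
    intro i k hik
    by_contra hne'
    apply hne i k hne'
    have h1 : cls (f i) = cls (f k) := congrArg Subtype.val hik
    have h2 : cls (f i - f k) = 0 := by
      have h3 : cls (f i - f k) = cls (f i) - cls (f k) := rfl
      rw [h3, h1, sub_self]
    rw [cls_eq_zero] at h2
    obtain ⟨P, ⟨n, hn⟩, hP⟩ := h2
    have hP : ∀ σ : Gal K, (c i).1 σ 1 - (c k).1 σ 1 = act (E1 D) σ.toAlgHom P - P := hP
    obtain ⟨R, hR0, hR⟩ : ∃ R : ℕ → Pt (E1 D) (AlgebraicClosure K), R 0 = P ∧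
        ∀ m, 3 • R (m + 1) = R m := by
      choose d hd using div3 hD hz
      exact ⟨fun m => Nat.rec P (fun _ P => d P) m, rfl, fun m => hd _⟩
    have hV : IsV 3 (E1 D) (fun m => 3 • R m) := by
      intro m
      refine ⟨?_, n + m, ?_⟩
      · show 3 • (3 • R (m + 1)) = 3 • R m
        rw [hR]
      · show (3 ^ (n + m) : ℕ) • (3 • R m) = 0
        have e1 := pw hR 0 m
        rw [zero_add, hR0] at e1
        rw [smul_comm, pow_add, mul_smul, e1, hn, smul_zero]
    obtain ⟨b, hb⟩ : ∃ b : selCocV 3 (E1 D), b.1 = fun σ m =>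
        act (E1 D) σ.toAlgHom (3 • R m) - 3 • R m := ⟨⟨_, cob_sel hV⟩, rfl⟩
    have hb0 : (QuotientAddGroup.mk b : H1f 3 (E1 D)) = 0 := by
      refine (QuotientAddGroup.eq_zero_iff _).2 ?_
      rw [AddSubgroup.mem_addSubgroupOf]
      refine ⟨fun m => 3 • R m, hV, fun σ m => ?_⟩
      rw [hb]
    have hd : IsSelV 3 (E1 D) ((c i).1 - (c k).1 - b.1) := (c i - c k - b).2
    have hy : IsSelV 3 (E1 D) (fun σ m => ((c i).1 - (c k).1 - b.1) σ (1 + m)) := by
      obtain ⟨⟨a1, a2, a3⟩, a4, a5⟩ := hd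
      have hl : ∀ (M : Type) [Field M] [Algebra K M],
          LocKum 3 (E1 D) M ((c i).1 - (c k).1 - b.1) →
          LocKum 3 (E1 D) M (fun σ m => ((c i).1 - (c k).1 - b.1) σ (1 + m)) := by
        intro M _ _ h ι
        obtain ⟨Q', h1, h2⟩ := h ι
        exact ⟨fun m => Q' (1 + m), fun m => h1 (1 + m), fun τ σ hτ m => h2 τ σ hτ (1 + m)⟩
      exact ⟨⟨fun m => a1 (1 + m), fun σ m => a2 σ (1 + m), fun σ τ m => a3 σ τ (1 + m)⟩,
        fun v => hl _ (a4 v), fun v => hl _ (a5 v)⟩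
    refine ⟨QuotientAddGroup.mk ⟨_, hy⟩, ⟨⟨_, hy⟩, rfl, fun σ => ?_⟩, ?_⟩
    · show (c i).1 σ 1 - (c k).1 σ 1 - b.1 σ 1 = 0
      rw [hb, hP]
      show act (E1 D) σ.toAlgHom P - P - (act (E1 D) σ.toAlgHom (3 • R (0 + 1)) - 3 • R (0 + 1)) = 0
      rw [hR, hR0, sub_self]
    · have e1 : c i = c k + b + (3 : ℕ) • (⟨_, hy⟩ : selCocV 3 (E1 D)) := by
        apply Subtype.ext
        funext σ m
        show (c i).1 σ m = (c k).1 σ m + b.1 σ m + (3 : ℕ) • (((c i).1 - (c k).1 - b.1) σ (1 + m))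
        have e2 := (hd.1.2.1 σ m).1
        rw [add_comm 1 m, e2]
        show (c i).1 σ m = (c k).1 σ m + b.1 σ m + ((c i).1 σ m - (c k).1 σ m - b.1 σ m)
        abel
      have e2 : (QuotientAddGroup.mk (c i) : H1f 3 (E1 D)) =
          QuotientAddGroup.mk (c k + b + (3 : ℕ) • (⟨_, hy⟩ : selCocV 3 (E1 D))) :=
        congrArg (fun c : selCocV 3 (E1 D) => (QuotientAddGroup.mk c : H1f 3 (E1 D))) e1
      rw [← hc1, ← hc1, e2, QuotientAddGroup.mk_add, QuotientAddGroup.mk_add,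
        QuotientAddGroup.mk_nsmul]
      have e3 : (QuotientAddGroup.mk (c k) : H1f 3 (E1 D)) + (QuotientAddGroup.mk b : H1f 3 (E1 D)) =
          (QuotientAddGroup.mk (c k) : H1f 3 (E1 D)) := by
        rw [hb0, add_zero]
      have e4 : ∀ A B Y Z : H1f 3 (E1 D), A + B = Z → A + B + 3 • Y = Z + 3 • Y :=
        fun A B Y Z h => by rw [h]
      exact e4 _ _ _ _ e3
  have h1 := Nat.card_le_card_of_injective _ hinj
  rw [Nat.card_fin, hcard] at h1
  exact h1.trans (Nat.pow_le_pow_right (by norm_num) hs2)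

end Pool.Agent.R419.MX
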