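import Pool.Agent.R419.MX.Kum

/-!
# Project MX: the final statements
-/

set_option autoImplicit false
set_option linter.unusedSectionVars false
set_option linter.unusedVariables false

open scoped Classical

namespace Pool.Agent.R419.MX

open NumberField WeierstrassCurve Filter
open Pool.Agent.Y692.QS (Ei w nr toC)
open Pool.Agent.Y715.T.Gi Pool.Agent.Y715.T.Nr Pool.Agent.Y715.T.Df Pool.Agent.Y715.T.Ell
open Pool.Agent.Y703.CT
open Pool.Agent.Y696.CTK
open Pool.Agent.Y155.CT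
open Pool.Agent.TH841.SH.D (Gal Coch IsCoc LocTriv cob)
open Pool.Agent.XL6 (SelH SelK x0_tt)
open Pool.Agent.Y350.CTK.Mw (act_act act_inj)

section
variable {K : Type} [Field K] [NumberField K] {j : Ei ≃+* 𝓞 K} {D : Ei}
  {e : AlgebraicClosure K ≃+* QB} {i₀ : QB} {hi : i₀ ^ 2 + i₀ + 1 = 0} {u : QB}
  {a : GK i₀ → ZMod 3}
  {Ψ : Pool.Agent.TH841.SH.D.Pt (ED (j D : K)) (AlgebraicClosure K) ≃+ Pt QB}
  {g : Pool.Agent.TH841.SH.D.Gal K ≃* GK i₀}

/-- the group of points is finitely generated -/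
theorem fg_K (hD : D ≠ 0) (hTr : TrfData K j D e i₀ hi u a Ψ g) :
    Module.Finite ℤ (ED (j D : K)).toAffine.Point := by
  obtain ⟨hTw, he, hgc, hgsc, hge, hΨ, hact⟩ := hTr
  have hfg := AG_fg (hi := hi) (a_mul hD hTw) (a_cont hD hTw)
  let φ : K →ₐ[K] AlgebraicClosure K := Algebra.ofId K (AlgebraicClosure K)
  let em : Pool.Agent.TH841.SH.D.Pt (ED (j D : K)) K →+ Pt QB :=
    Ψ.toAddMonoidHom.comp (Pool.Agent.TH841.SH.D.act (ED (j D : K)) φ)
  have hinj : Function.Injective em := Ψ.injective.comp (act_inj _ φ)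
  have hfix : ∀ (P : Pool.Agent.TH841.SH.D.Pt (ED (j D : K)) K) (σ : GK i₀),
      Pool.Agent.Y703.CT.act hi a σ (em P) = em P := by
    intro P σ
    have h1 := hact (g.symm σ) (Pool.Agent.TH841.SH.D.act (ED (j D : K)) φ P)
    rw [g.apply_symm_apply] at h1
    refine h1.symm.trans ?_
    rw [act_act]
    have h2 : ((g.symm σ).toAlgHom).comp φ = φ := by
      refine AlgHom.ext fun x => ?_
      exact (g.symm σ).commutes x
    rw [h2]
    rfl
  let em' : Pool.Agent.TH841.SH.D.Pt (ED (j D : K)) K →+ AG hi a :=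
    { toFun := fun P => ⟨em P, fun σ => hfix P σ⟩
      map_zero' := Subtype.ext (map_zero em)
      map_add' := fun P Q => Subtype.ext (map_add em P Q) }
  have h1 : Module.Finite ℤ (Pool.Agent.TH841.SH.D.Pt (ED (j D : K)) K) :=
    Module.Finite.of_injective em'.toIntLinearMap fun P Q h => hinj (congrArg Subtype.val h)
  exact h1

end

section
open Pool.Agent.R419.KF (ClsKC)
open Pool.Agent.R419.KL (cls_data oneK prp prp_mono prp_congr cumT ne_zero not_cube ex_root even_pt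
  cr_succ prob_facts)
open Pool.Agent.Y703.XL (cr)
open Pool.Agent.Y703.XL.Inf (selCoc cobInf SelInf killed Sg E1 sel_triv cls cls_eq_zero)
variable {K : Type} [Field K] [NumberField K]

theorem fg_cls [IsCyclotomicExtension {3} ℚ K] {D : 𝓞 K} (hD : ClsKC D) :
    Module.Finite ℤ (ED (D : K)).toAffine.Point := by
  obtain ⟨⟨j, hj⟩, -⟩ := Pool.Agent.Y455.CTK.jex K
  obtain ⟨n, π, e, hdt, rfl, h9⟩ := cls_data j hj hD
  have hne : pD π e ≠ 0 := Pool.Agent.Y153.CTRAM.ne_zero_of hdt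
  obtain ⟨e', i₀, hi, u, a, Ψ, g, hdata⟩ := Parts.trf parts K j _ hne
  exact fg_K hne hdata

/-- finite or positive rank -/
lemma fin_or_rank {A : Type} [AddCommGroup A] [Module.Finite ℤ A] (h : Module.finrank ℤ A = 0) :
    Finite A := by
  have h1 : Module.IsTorsion ℤ A := Module.finrank_eq_zero_iff_isTorsion.1 h
  exact Module.finite_of_fg_torsion A h1

/-- **One curve of maximal rank.** -/
theorem max_sel [IsCyclotomicExtension {3} ℚ K] {D : 𝓞 K} (hD : ClsKC D) {r : ℕ}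
    (hr : (SelK (D : K)).ncard = 3 ^ (r + 1))
    (hrk : 2 * r ≤ Module.finrank ℤ (ED (D : K)).toAffine.Point) :
    ∀ f ∈ selCoc (D : K), Kum (E1 (D : K)) f := by
  obtain ⟨ω, hω⟩ := ex_root K
  rcases Nat.eq_zero_or_pos r with h0 | h0
  · subst h0
    have h1 : (SelK (D : K)).ncard = 3 * (killed ω (D : K)).ncard :=
      Pool.Agent.Y703.XL.Inf.sel_card (ne_zero hD) hω (not_cube hD)
    have h2 : (killed ω (D : K)).ncard = 1 := by
      rw [hr] at h1
      omega
    have h3 := (sel_triv (ne_zero hD) hω).1 h2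
    intro f hf
    have h4 := h3 (cls ⟨f, hf⟩)
    rw [cls_eq_zero] at h4
    obtain ⟨P, -, hP⟩ := h4
    exact ⟨P, hP⟩
  · refine all_kum (ne_zero hD) hω fun f hf => ?_
    refine max_rank hD h0.ne' hr hrk f ⟨hf.1, fun σ => ?_⟩
    exact (Pool.Agent.Y703.XL.Inf.ph_ker (ne_zero hD) hω (f σ)).1 (hf.2 σ)

/-- both conclusions -/
def Max (D : K) : Prop :=
  (∀ (n : ℕ) (x : Pool.Agent.TH841.NF.D.Sha (ED D)), 3 ^ n • x = 0 → x = 0) ∧
    ∀ c : Pool.Agent.Y667.BKP.Coch2 (ED D), Pool.Agent.Y667.BKP.IsSelV 3 (ED D) c → ∀ n,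
      Kum (ED D) (fun σ => c σ n)

theorem max_of [IsCyclotomicExtension {3} ℚ K] {D : 𝓞 K} (hD : ClsKC D) {r : ℕ}
    (hr : (SelK (D : K)).ncard = 3 ^ (r + 1))
    (hrk : 2 * r ≤ Module.finrank ℤ (ED (D : K)).toAffine.Point) : Max (D : K) := by
  obtain ⟨ω, hω⟩ := ex_root K
  have H := max_sel hD hr hrk
  exact ⟨sha_zero (ne_zero hD) hω H, fun c hc n => h1f_kum H hc n⟩

/-- **Small Selmer groups.** -/
theorem small [IsCyclotomicExtension {3} ℚ K] {D : 𝓞 K} (hD : ClsKC D)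
    (h : (SelK (D : K)).ncard ≤ 9) : Finite (ED (D : K)).toAffine.Point ∨
      (Module.finrank ℤ (ED (D : K)).toAffine.Point = 2 ∧ Max (D : K)) := by
  obtain ⟨ω, hω⟩ := ex_root K
  obtain ⟨⟨s, hs, hrk⟩, -⟩ := oneK hD
  have hs1 : s ≤ 1 := by
    rw [hs, show (9 : ℕ) = 3 ^ (1 + 1) by norm_num, Nat.pow_le_pow_iff_right (by norm_num)] at h
    omega
  have hfg := fg_cls hD
  by_cases h0 : Module.finrank ℤ (ED (D : K)).toAffine.Point = 0
  · exact Or.inl (fin_or_rank h0)
  · right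
    obtain ⟨m, hm⟩ := even_pt (K := K) (ne_zero hD) hω
    have hm' : Module.finrank ℤ (ED (D : K)).toAffine.Point = m + m := hm
    have hs2 : s = 1 := by omega
    subst hs2
    have h2 : Module.finrank ℤ (ED (D : K)).toAffine.Point = 2 := by omega
    exact ⟨h2, max_of hD hs (by omega)⟩

/-- **The proportion.** -/
theorem law (K : Type) [Field K] [NumberField K] [IsCyclotomicExtension {3} ℚ K] :
    Tendsto (prp (fun D : 𝓞 K => (SelK (D : K)).ncard ≤ 9)) atTop (nhds (cr 0 + cr 1)) ∧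
    0.9585 < cr 0 + cr 1 := by
  have h := cumT K 2
  have h1 := cr_succ 0
  norm_num at h1
  have h3 := prob_facts.2.1
  rw [Finset.sum_range_succ, Finset.sum_range_succ, Finset.range_zero, Finset.sum_empty,
    zero_add] at h
  refine ⟨h, ?_⟩
  rw [h1]
  linarith

end

end Pool.Agent.R419.MX
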