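import Pool.Agent.R419.MX.Fin

/-!
# Project MX: the Kummer map onto the Bloch–Kato Selmer group
-/

set_option autoImplicit false
set_option linter.unusedSectionVars false
set_option linter.unusedVariables false

open scoped Classical

namespace Pool.Agent.R419.MX

open NumberField WeierstrassCurve
open Pool.Agent.TH841.SH.D (Pt act Gal Coch)
open Pool.Agent.Y667.BKP
open Pool.Agent.Y703.XL.Inf (E1 lc_act act_act act_mul selCoc)

section
variable {F : Type} [Field F] [NumberField F]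

/-- the point is rational -/
def Rat (W : WeierstrassCurve F) (P : Pt W (AlgebraicClosure F)) : Prop :=
  ∀ σ : Gal F, act W σ.toAlgHom P = P

/-- the class of a cocycle with values in the Tate module -/
def Integral (W : WeierstrassCurve F) (x : H1f 3 W) : Prop :=
  ∃ c : selCocV 3 W, (QuotientAddGroup.mk c : H1f 3 W) = x ∧ ∀ σ : Gal F, c.1 σ 0 = 0

/-- the Kummer class of a point -/
def KumCls (W : WeierstrassCurve F) (P : Pt W (AlgebraicClosure F)) (x : H1f 3 W) : Prop :=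
  ∃ (c : selCocV 3 W) (Q : ℕ → Pt W (AlgebraicClosure F)), (QuotientAddGroup.mk c : H1f 3 W) = x ∧
    Q 0 = P ∧ (∀ n, 3 • Q (n + 1) = Q n) ∧
    ∀ (σ : Gal F) (n : ℕ), c.1 σ n = act W σ.toAlgHom (Q n) - Q n

lemma pw {A : Type} [AddCommGroup A] {Q : ℕ → A} (h : ∀ n, 3 • Q (n + 1) = Q n) (n k : ℕ) :
    3 ^ k • Q (n + k) = Q n := by
  induction k with
  | zero => simp
  | succ k ih => rw [pow_succ, mul_smul, ← add_assoc, h, ih]

lemma integral_of {W : WeierstrassCurve F} (x : H1f 3 W) : ∃ m : ℕ, Integral W (3 ^ m • x) := by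
  obtain ⟨⟨c, hc⟩, rfl⟩ := QuotientAddGroup.mk_surjective x
  obtain ⟨m, hm⟩ := coord_tor (show IsSelV 3 W c from hc).1 0
  refine ⟨m, (3 ^ m : ℕ) • ⟨c, hc⟩, QuotientAddGroup.mk_nsmul _ _ _, fun σ => ?_⟩
  exact hm σ

/-- injectivity of the Kummer map -/
theorem inj_kum {W : WeierstrassCurve F} {P : Pt W (AlgebraicClosure F)} {k z : H1f 3 W} {n : ℕ}
    (hP : Rat W P) (hk : KumCls W P k) (hz : Integral W z) (h : k = 3 ^ n • z) :
    ∃ R T : Pt W (AlgebraicClosure F), Rat W R ∧ Rat W T ∧ P = 3 ^ n • R + T ∧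
      ∃ m : ℕ, 3 ^ m • T = 0 := by
  obtain ⟨c, Q, rfl, rfl, hQ, hc⟩ := hk
  obtain ⟨y, rfl, hy⟩ := hz
  have h1 : (QuotientAddGroup.mk (c - (3 ^ n : ℕ) • y) : H1f 3 W) = 0 := by
    rw [QuotientAddGroup.mk_sub, QuotientAddGroup.mk_nsmul]
    exact sub_eq_zero.2 h
  have h2 := (QuotientAddGroup.eq_zero_iff _).1 h1
  rw [AddSubgroup.mem_addSubgroupOf] at h2
  obtain ⟨x, hx, hx2⟩ := h2
  have hyn : ∀ σ : Gal F, (3 ^ n : ℕ) • y.1 σ n = 0 := by
    intro σ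
    have h3 := pw (Q := y.1 σ) (fun m => ((show IsSelV 3 W y.1 from y.2).1.2.1 σ m).1) 0 n
    rw [zero_add] at h3
    rw [h3]
    exact hy σ
  have h3 : ∀ σ : Gal F, act W σ.toAlgHom (Q n) - Q n = act W σ.toAlgHom (x n) - x n := by
    intro σ
    have h4 : c.1 σ n - (3 ^ n : ℕ) • y.1 σ n = act W σ.toAlgHom (x n) - x n := hx2 σ n
    rw [hyn, sub_zero, hc] at h4
    exact h4
  have hR : Rat W (Q n - x n) := by
    intro σ
    rw [map_sub, ← sub_eq_zero]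
    have h4 := sub_eq_zero.2 (h3 σ)
    rw [← h4]
    abel
  have e1 : Q 0 = 3 ^ n • (Q n - x n) + x 0 := by
    have e2 := pw hQ 0 n
    have e3 := pw (Q := x) (fun m => (hx m).1) 0 n
    rw [zero_add] at e2 e3
    rw [smul_sub, e2, e3]
    abel
  refine ⟨Q n - x n, x 0, hR, ?_, e1, (hx 0).2⟩
  intro σ
  have e2 : x 0 = Q 0 - 3 ^ n • (Q n - x n) := by
    rw [e1]
    abel
  rw [e2, map_sub, map_nsmul, hR σ, hP σ]

end

section
variable {K : Type} [Field K] [NumberField K] {D z : K}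

/-- a division sequence of a rational point -/
lemma kum_sel {Q : ℕ → Pt (E1 D) (AlgebraicClosure K)} (hQ : ∀ n, 3 • Q (n + 1) = Q n)
    (hfix : Rat (E1 D) (Q 0)) :
    IsSelV 3 (E1 D) (fun σ n => act (E1 D) σ.toAlgHom (Q n) - Q n) := by
  have hloc : ∀ (M : Type) [Field M] [Algebra K M], LocKum 3 (E1 D) M
      (fun σ n => act (E1 D) σ.toAlgHom (Q n) - Q n) := by
    intro M _ _ ι
    refine ⟨fun n => act (E1 D) ι (Q n), fun n => ?_, fun τ σ h n => ?_⟩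
    · rw [← map_nsmul, hQ]
    · rw [map_sub, act_act, act_act]
      have e1 : ι.comp σ.toAlgHom = (τ.toAlgHom.restrictScalars K).comp ι :=
        AlgHom.ext fun x => (h x).symm
      rw [e1]
  refine ⟨⟨fun n => (lc_act (Q n)).sub (IsLocallyConstant.const (Q n)), fun σ n => ⟨?_, n, ?_⟩,
    fun σ τ n => ?_⟩, fun v => hloc _, fun v => hloc _⟩
  · show 3 • (act (E1 D) σ.toAlgHom (Q (n + 1)) - Q (n + 1)) = _
    rw [smul_sub, ← map_nsmul, hQ]
  · show (3 ^ n : ℕ) • (act (E1 D) σ.toAlgHom (Q n) - Q n) = 0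
    have e1 := pw hQ 0 n
    rw [zero_add] at e1
    rw [smul_sub, ← map_nsmul, e1, hfix σ, sub_self]
  · show act (E1 D) (σ * τ).toAlgHom (Q n) - Q n = (act (E1 D) σ.toAlgHom (Q n) - Q n) +
      act (E1 D) σ.toAlgHom (act (E1 D) τ.toAlgHom (Q n) - Q n)
    rw [map_sub, act_mul]
    abel

/-- surjectivity of the Kummer map -/
theorem surj_kum (hD : D ≠ 0) (hz : z ^ 2 + z + 1 = 0) (H : ∀ f ∈ selCoc D, Kum (E1 D) f)
    {x : H1f 3 (E1 D)} (hx : Integral (E1 D) x) (n : ℕ) :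
    ∃ (P : Pt (E1 D) (AlgebraicClosure K)) (k y : H1f 3 (E1 D)), Rat (E1 D) P ∧
      KumCls (E1 D) P k ∧ Integral (E1 D) y ∧ x = k + 3 ^ n • y := by
  obtain ⟨c, rfl, hc0⟩ := hx
  have hc : IsSelV 3 (E1 D) c.1 := c.2
  obtain ⟨Q, hQ⟩ := h1f_kum H hc n
  have hQ : ∀ σ : Gal K, c.1 σ n = act (E1 D) σ.toAlgHom Q - Q := hQ
  have hcp : ∀ (σ : Gal K) (m k : ℕ), 3 ^ k • c.1 σ (m + k) = c.1 σ m := fun σ m k =>
    pw (Q := c.1 σ) (fun m => (hc.1.2.1 σ m).1) m k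
  -- a division sequence of `Q`
  obtain ⟨R, hR0, hR⟩ : ∃ R : ℕ → Pt (E1 D) (AlgebraicClosure K), R 0 = Q ∧
      ∀ m, 3 • R (m + 1) = R m := by
    choose d hd using Pool.Agent.R419.KL.div3 hD hz
    exact ⟨fun m => Nat.rec Q (fun _ P => d P) m, rfl, fun m => hd _⟩
  have hfix : Rat (E1 D) (3 ^ n • R 0) := by
    intro σ
    have h1 := hcp σ 0 n
    rw [zero_add, hQ σ, hc0 σ, smul_sub] at h1
    rw [hR0, map_nsmul]
    exact sub_eq_zero.1 h1
  have hS : ∀ m, 3 • (3 ^ n • R (m + 1)) = 3 ^ n • R m := by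
    intro m
    rw [smul_comm, hR]
  obtain ⟨kc, hkc⟩ : ∃ kc : selCocV 3 (E1 D), kc.1 = fun σ m =>
      act (E1 D) σ.toAlgHom (3 ^ n • R m) - 3 ^ n • R m := ⟨⟨_, kum_sel hS hfix⟩, rfl⟩
  have hd : IsSelV 3 (E1 D) (c.1 - kc.1) := (c - kc).2
  -- the shift
  have hy : IsSelV 3 (E1 D) (fun σ m => (c.1 - kc.1) σ (n + m)) := by
    obtain ⟨⟨a1, a2, a3⟩, a4, a5⟩ := hd
    have hl : ∀ (M : Type) [Field M] [Algebra K M], LocKum 3 (E1 D) M (c.1 - kc.1) →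
        LocKum 3 (E1 D) M (fun σ m => (c.1 - kc.1) σ (n + m)) := by
      intro M _ _ h ι
      obtain ⟨Q', h1, h2⟩ := h ι
      exact ⟨fun m => Q' (n + m), fun m => h1 (n + m), fun τ σ hτ m => h2 τ σ hτ (n + m)⟩
    exact ⟨⟨fun m => a1 (n + m), fun σ m => a2 σ (n + m), fun σ τ m => a3 σ τ (n + m)⟩,
      fun v => hl _ (a4 v), fun v => hl _ (a5 v)⟩
  refine ⟨3 ^ n • R 0, QuotientAddGroup.mk kc, QuotientAddGroup.mk ⟨_, hy⟩, hfix,
    ⟨kc, fun m => 3 ^ n • R m, rfl, rfl, hS, fun σ m => by rw [hkc]⟩, ⟨⟨_, hy⟩, rfl, fun σ => ?_⟩, ?_⟩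
  · show c.1 σ (n + 0) - kc.1 σ (n + 0) = 0
    rw [hkc]
    have e1 := pw hR 0 n
    rw [zero_add, hR0] at e1
    show c.1 σ n - (act (E1 D) σ.toAlgHom (3 ^ n • R n) - 3 ^ n • R n) = 0
    rw [e1, hQ σ, sub_self]
  · have e1 : c = kc + (3 ^ n : ℕ) • (⟨_, hy⟩ : selCocV 3 (E1 D)) := by
      apply Subtype.ext
      funext σ m
      show c.1 σ m = kc.1 σ m + (3 ^ n : ℕ) • ((c.1 - kc.1) σ (n + m))
      have e2 := pw (Q := (c.1 - kc.1) σ) (fun m => (hd.1.2.1 σ m).1) m n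
      rw [add_comm n m, e2]
      show c.1 σ m = kc.1 σ m + (c.1 σ m - kc.1 σ m)
      abel
    have e2 : (QuotientAddGroup.mk c : H1f 3 (E1 D)) =
        QuotientAddGroup.mk (kc + (3 ^ n : ℕ) • (⟨_, hy⟩ : selCocV 3 (E1 D))) :=
      congrArg (fun c : selCocV 3 (E1 D) => (QuotientAddGroup.mk c : H1f 3 (E1 D))) e1
    rw [e2, QuotientAddGroup.mk_add, QuotientAddGroup.mk_nsmul]
    rfl

end

end Pool.Agent.R419.MX
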