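import Pool.Agent.R419.MX.Rk
import Pool.Agent.R419.KL.Cor
import Pool.Agent.R419.KL.Rank
import Pool.Agent.Y667.BKP.Main

/-!
# Project MX: curves of maximal rank, the Tate–Shafarevich group and the Bloch–Kato Selmer group
-/

set_option autoImplicit false
set_option linter.unusedSectionVars false
set_option linter.unusedVariables false

open scoped Classical

namespace Pool.Agent.R419.MX

open NumberField WeierstrassCurve
open Pool.Agent.Y692.QS (Ei w nr toC)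
open Pool.Agent.Y715.T.Gi Pool.Agent.Y715.T.Nr Pool.Agent.Y715.T.Df Pool.Agent.Y715.T.Ell
open Pool.Agent.Y703.CT
open Pool.Agent.Y696.CTK
open Pool.Agent.Y155.CT
open Pool.Agent.TH841.SH.D (Gal Coch IsCoc LocTriv cob)
open Pool.Agent.XL6 (SelH SelK x0_tt)

section
variable {K : Type} [Field K] [NumberField K] {j : Ei ≃+* 𝓞 K} {D : Ei}
  {e : AlgebraicClosure K ≃+* QB} {i₀ : QB} {hi : i₀ ^ 2 + i₀ + 1 = 0} {u : QB}
  {a : GK i₀ → ZMod 3}
  {Ψ : Pool.Agent.TH841.SH.D.Pt (ED (j D : K)) (AlgebraicClosure K) ≃+ Pt QB}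
  {g : Pool.Agent.TH841.SH.D.Gal K ≃* GK i₀}

/-- the Selmer classes of `√-3` over `K` come from points, if the Selmer characters do -/
theorem selK_kum (hD : D ≠ 0) (hTr : TrfData K j D e i₀ hi u a Ψ g)
    (hall : ∀ h ∈ SelH hi a, h ∈ KumH hi a) : ∀ f ∈ SelK (j D : K),
    ∃ Q : Pool.Agent.TH841.SH.D.Pt (ED (j D : K)) (AlgebraicClosure K), ∀ σ : Gal K,
      f σ = Pool.Agent.TH841.SH.D.act (ED (j D : K)) σ.toAlgHom Q - Q := by
  obtain ⟨hTw, he, hgc, hgsc, hge, hΨ, hact⟩ := id hTr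
  have hu : u ^ 3 = e (algebraMap K (AlgebraicClosure K) (j D : K)) := by
    rw [hTw.cube, he]
  have hu0 : u ≠ 0 := by
    rintro rfl
    exact ev_ne hi hD (by rw [← hTw.cube]; ring)
  intro f hf
  obtain ⟨h1, h2⟩ := hf
  have hex : ∀ σ, ∃ c, Ψ (f (g.symm σ)) = tt QB c := by
    intro σ
    rcases h2 (g.symm σ) with h3 | ⟨y, hn, h3⟩
    · refine ⟨0, ?_⟩
      rw [h3, map_zero, tt_zero]
    · obtain ⟨h', e1⟩ := hΨ 0 y hn
      obtain ⟨c, hc⟩ := x0_tt h' (by rw [map_zero, zero_div])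
      exact ⟨c, ((congrArg Ψ h3).trans e1).trans hc⟩
  choose h hh using hex
  have hcont : IsLocallyConstant h := by
    have e1 : h = (fun P : Pt QB =>
        if hx : ∃ c : ZMod 3, P = tt QB c then hx.choose else 0) ∘
          (fun σ => Ψ (f (g.symm σ))) := by
      ext1 σ
      show h σ = if hx : ∃ c : ZMod 3, Ψ (f (g.symm σ)) = tt QB c then hx.choose else 0
      have hx : ∃ c : ZMod 3, Ψ (f (g.symm σ)) = tt QB c := ⟨h σ, hh σ⟩
      rw [dif_pos hx]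
      exact tt_inj ((hh σ).symm.trans hx.choose_spec)
    rw [e1]
    exact ((h1.1.1.comp_continuous hgsc).comp _).comp _
  have hmul : ∀ σ τ, h (σ * τ) = h σ + h τ := by
    intro σ τ
    apply tt_inj (L := QB)
    rw [tt_add, ← hh, ← hh, ← hh, map_mul, h1.1.2, map_add, hact, g.apply_symm_apply, hh τ]
    congr 1
    exact ah_tt hi a σ (h τ)
  have hS : h ∈ SelH hi a := by
    refine ⟨hcont, hmul, fun p _ ι => ?_⟩
    obtain ⟨R, hR⟩ := Pool.Agent.Y891.CTK.local_part hi hu0 hu hTw.act hge hΨ h1 p ι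
    refine ⟨R, fun τ σ hc => ?_⟩
    rw [← hR τ σ hc, hh, pm_tt]
  obtain ⟨-, R, hR⟩ := hall h hS
  obtain ⟨Q, hQ⟩ : ∃ Q, Ψ Q = R := ⟨Ψ.symm R, Ψ.apply_symm_apply R⟩
  refine ⟨Q, fun σ => ?_⟩
  apply Ψ.injective
  have e1 := hR (g σ)
  have e2 := hh (g σ)
  rw [g.symm_apply_apply] at e2
  rw [e2, ← e1, map_sub, hact, hQ]
  rfl

end

section
open Pool.Agent.Y703.XL.Inf
open Pool.Agent.TH841.NF.D (IsShaCoc shaCoc)

variable {K : Type} [Field K] [NumberField K] {D z : K}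

/-- the cocycle comes from a point over the algebraic closure -/
def Kum {K : Type} [Field K] (W : WeierstrassCurve K) (f : Coch W) : Prop :=
  ∃ Q : Pool.Agent.TH841.SH.D.Pt W (AlgebraicClosure K), ∀ σ : Gal K,
    f σ = Pool.Agent.TH841.SH.D.act W σ.toAlgHom Q - Q

lemma all_kum (hD : D ≠ 0) (hz : z ^ 2 + z + 1 = 0) (H : ∀ f ∈ Sg (D := D) hz, Kum (E1 D) f) :
    ∀ f ∈ selCoc D, Kum (E1 D) f := by
  have key : ∀ (k : ℕ) (f : Coch (E1 D)), f ∈ selCoc D →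
      (∀ σ, (ph hz)^[k] (f σ) = 0) → Kum (E1 D) f := by
    intro k
    induction k with
    | zero =>
      intro f _ h
      refine ⟨0, fun σ => ?_⟩
      rw [map_zero, sub_zero]
      exact h σ
    | succ k ih =>
      intro f hf h
      obtain ⟨Q, hQ⟩ := ih (fun σ => ph hz (f σ)) (ph_sel hz hf) h
      obtain ⟨R, rfl⟩ := ph_surj hD hz Q
      have hm : f - cbf R ∈ Sg (D := D) hz := by
        refine ⟨(shaCoc (E1 D)).sub_mem hf.1 (cbf_sha R), fun σ => ?_⟩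
        show ph hz (f σ - (Pool.Agent.TH841.SH.D.act (E1 D) σ.toAlgHom R - R)) = 0
        have hP' : ph hz (f σ) = Pool.Agent.TH841.SH.D.act (E1 D) σ.toAlgHom (ph hz R) - ph hz R :=
          hQ σ
        rw [map_sub, hP', map_sub, act_ph, sub_self]
      obtain ⟨Q', hQ'⟩ := H _ hm
      refine ⟨Q' + R, fun σ => ?_⟩
      have h1 : f σ - (Pool.Agent.TH841.SH.D.act (E1 D) σ.toAlgHom R - R) =
          Pool.Agent.TH841.SH.D.act (E1 D) σ.toAlgHom Q' - Q' := hQ' σ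
      rw [map_add, ← sub_eq_zero]
      rw [← sub_eq_zero] at h1
      rw [← h1]
      abel
  intro f hf
  have hfin : (Set.range f).Finite := hf.1.1.1.range_finite
  have hN : ∃ N : ℕ, ∀ σ, 3 ^ N • f σ = 0 := by
    choose n hn using hf.2
    have hn' : ∀ R ∈ Set.range f, ∃ m : ℕ, 3 ^ m • R = 0 := by
      rintro _ ⟨σ, rfl⟩
      exact ⟨_, hn σ⟩
    choose! m hm using hn'
    refine ⟨hfin.toFinset.sup m, fun σ => ?_⟩
    have h1 : m (f σ) ≤ hfin.toFinset.sup m :=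
      Finset.le_sup (hfin.mem_toFinset.2 (Set.mem_range_self σ))
    obtain ⟨c, hc⟩ := Nat.exists_eq_add_of_le h1
    rw [hc, add_comm, pow_add, mul_smul, hm _ (Set.mem_range_self σ), smul_zero]
  obtain ⟨N, hN⟩ := hN
  exact key (2 * N) f hf fun σ => iter_pow hD hz N (hN σ)

/-- the 3-primary part of Sha is trivial -/
lemma sha_zero (hD : D ≠ 0) (hz : z ^ 2 + z + 1 = 0) (H : ∀ f ∈ selCoc D, Kum (E1 D) f) :
    ∀ (n : ℕ) (x : Pool.Agent.TH841.NF.D.Sha (E1 D)), 3 ^ n • x = 0 → x = 0 := by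
  intro n x hx
  obtain ⟨f, rfl⟩ : ∃ f : shaCoc (E1 D),
      (QuotientAddGroup.mk f : Pool.Agent.TH841.NF.D.Sha (E1 D)) = x :=
    QuotientAddGroup.mk_surjective x
  have hx' : (QuotientAddGroup.mk ((3 ^ n : ℕ) • f) : Pool.Agent.TH841.NF.D.Sha (E1 D)) = 0 := by
    rw [QuotientAddGroup.mk_nsmul]
    exact hx
  have h3 := (QuotientAddGroup.eq_zero_iff _).1 hx'
  rw [AddSubgroup.mem_addSubgroupOf] at h3
  obtain ⟨P, hP⟩ := h3
  have hdiv : ∀ (n : ℕ) (P : Pool.Agent.TH841.SH.D.Pt (E1 D) (AlgebraicClosure K)),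
      ∃ R, 3 ^ n • R = P := by
    intro n
    induction n with
    | zero => exact fun P => ⟨P, by rw [pow_zero, one_smul]⟩
    | succ n ih =>
      intro P
      obtain ⟨R, rfl⟩ := ih P
      obtain ⟨R', rfl⟩ := Pool.Agent.R419.KL.div3 hD hz R
      exact ⟨R', by rw [pow_succ, mul_smul]⟩
  obtain ⟨R, rfl⟩ := hdiv n P
  have hm : f.1 - cbf R ∈ selCoc D := by
    refine ⟨(shaCoc (E1 D)).sub_mem f.2 (cbf_sha R), fun σ => ⟨n, ?_⟩⟩
    show 3 ^ n • (f.1 σ - (Pool.Agent.TH841.SH.D.act (E1 D) σ.toAlgHom R - R)) = 0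
    have hP' : 3 ^ n • f.1 σ =
        Pool.Agent.TH841.SH.D.act (E1 D) σ.toAlgHom (3 ^ n • R) - 3 ^ n • R := hP σ
    rw [smul_sub, hP', smul_sub, map_nsmul, sub_self]
  obtain ⟨Q', hQ'⟩ := H _ hm
  refine (QuotientAddGroup.eq_zero_iff _).2 ?_
  rw [AddSubgroup.mem_addSubgroupOf]
  refine ⟨Q' + R, fun σ => ?_⟩
  have h1 : f.1 σ - (Pool.Agent.TH841.SH.D.act (E1 D) σ.toAlgHom R - R) =
      Pool.Agent.TH841.SH.D.act (E1 D) σ.toAlgHom Q' - Q' := hQ' σ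
  show f.1 σ = Pool.Agent.TH841.SH.D.act (E1 D) σ.toAlgHom (Q' + R) - (Q' + R)
  rw [map_add, ← sub_eq_zero]
  rw [← sub_eq_zero] at h1
  rw [← h1]
  abel

/-- the classes of the Bloch–Kato Selmer group come from points -/
lemma h1f_kum (H : ∀ f ∈ selCoc D, Kum (E1 D) f)
    {c : Pool.Agent.Y667.BKP.Coch2 (E1 D)} (hc : Pool.Agent.Y667.BKP.IsSelV 3 (E1 D) c) (n : ℕ) :
    Kum (E1 D) (fun σ => c σ n) :=
  H _ ⟨Pool.Agent.Y667.BKP.coord_sha hc n, fun σ => (hc.1.2.1 σ n).2⟩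

end

section
open Pool.Agent.R419.KF (ClsKC)
variable {K : Type} [Field K] [NumberField K]

/-- **Curves of maximal rank.** -/
theorem max_rank [IsCyclotomicExtension {3} ℚ K] {D : 𝓞 K} (hD : ClsKC D) {r : ℕ} (hr0 : r ≠ 0)
    (hr : (SelK (D : K)).ncard = 3 ^ (r + 1))
    (hrk : 2 * r ≤ Module.finrank ℤ (ED (D : K)).toAffine.Point) :
    ∀ f ∈ SelK (D : K), Kum (ED (D : K)) f := by
  obtain ⟨⟨j, hj⟩, -⟩ := Pool.Agent.Y455.CTK.jex K
  obtain ⟨n, π, e, hdt, rfl, h9⟩ := Pool.Agent.R419.KL.cls_data j hj hD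
  have hne : pD π e ≠ 0 := Pool.Agent.Y153.CTRAM.ne_zero_of hdt
  obtain ⟨e', i₀, hi, u, a, Ψ, g, hdata⟩ := Parts.trf parts K j _ hne
  have hT := hdata.1
  have h1 : (SelH hi a).ncard = 3 ^ (r + 1) :=
    (Pool.Agent.XL6.selK_card hne hdata).symm.trans hr
  have h2 : 2 * r ≤ Module.finrank ℤ (AG hi a) := hrk.trans (Pool.Agent.XL6.rk_le hne hdata)
  exact selK_kum hne hdata (kum_all (a_mul hne hT) (a_cont hne hT) (a_ne hdt hT) h1 h2 hr0)

end

end Pool.Agent.R419.MX
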