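import Pool.Agent.R419.KL.Sel3
import Pool.Agent.R419.KL.Fin

/-!
# Project MX: curves of maximal rank

If the rank of `E_D(K)` is as large as the `√-3`-Selmer group allows, then every class of this group
comes from a point.
-/

set_option autoImplicit false
set_option linter.unusedSectionVars false
set_option linter.unusedVariables false

open scoped Classical

namespace Pool.Agent.R419.MX

open WeierstrassCurve
open Pool.Agent.Y692.QS (Ei w nr toC)
open Pool.Agent.Y715.T.Gi Pool.Agent.Y715.T.Nr Pool.Agent.Y715.T.Df Pool.Agent.Y715.T.Ell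
open Pool.Agent.Y703.CT
open Pool.Agent.Y155.CT
open Pool.Agent.XL6 (SelH kum_pt quot_map)

section
variable {i₀ : QB} {hi : i₀ ^ 2 + i₀ + 1 = 0} {a : GK i₀ → ZMod 3}

/-- the Selmer characters of points -/
def KumH (hi : i₀ ^ 2 + i₀ + 1 = 0) (a : GK i₀ → ZMod 3) : Set (GK i₀ → ZMod 3) :=
  {h | h ∈ SelH hi a ∧ ∃ R : Pt QB, ∀ σ, ah hi a σ R - R = tt QB (h σ)}

/-- **The bound for the rank.** -/
theorem rank_le' (ha : ∀ σ τ, a (σ * τ) = a σ + a τ) (hc : IsLocallyConstant a)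
    (hne : ∃ σ, a σ ≠ 0) {r : ℕ} (hfin : (KumH hi a).Finite)
    (hr : (KumH hi a).ncard ≤ 3 ^ (r + 1)) : Module.finrank ℤ (AG hi a) ≤ 2 * r := by
  have hfg := AG_fg (hi := hi) ha hc
  -- a choice of the square roots and of the characters
  have hch : ∀ P : AG hi a, ∃ (R : Pt QB) (h : GK i₀ → ZMod 3),
      Pool.Agent.Y155.CT.dd hi R = P.1 ∧ h ∈ SelH hi a ∧ ∀ σ, ah hi a σ R - R = tt QB (h σ) := by
    intro P
    obtain ⟨R, hR⟩ := dd_surj hi P.1
    obtain ⟨h, h1, h2⟩ := kum_pt ha hc (R := R) (by rw [hR]; exact P.2)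
    exact ⟨R, h, hR, h1, h2⟩
  choose R h hR hS hh using hch
  -- the equivalence relation
  let s : Setoid (AG hi a) :=
    { r := fun P P' => ∃ c : ZMod 3, ∀ σ, h P σ = h P' σ + c * a σ
      iseqv :=
        { refl := fun P => ⟨0, fun σ => by ring⟩
          symm := fun {P P'} ⟨c, hc'⟩ => ⟨-c, fun σ => by rw [hc' σ]; ring⟩
          trans := fun {P P' P''} ⟨c, hc'⟩ ⟨c', hc''⟩ =>
            ⟨c + c', fun σ => by rw [hc' σ, hc'' σ]; ring⟩ } }
  let Q := Quotient s
  -- the characters of a class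
  have hmem : ∀ (P : AG hi a) (c : ZMod 3), (fun σ => h P σ - c * a σ) ∈ KumH hi a := by
    intro P c
    obtain ⟨h', h1, h2⟩ := kum_pt ha hc (R := R P + c.val • T3 hi) (by
      rw [map_add, map_nsmul, dd_T3, hR, nsmul_tt, mul_one, ZMod.natCast_zmod_val]
      exact add_mem P.2 (tt_mem c))
    have h3 : h' = fun σ => h P σ - c * a σ := by
      funext σ
      apply tt_inj (L := QB)
      have h4 := ah_nT3 hi a σ c
      rw [← h2, tt_sub, ← hh]
      have h5 : ah hi a σ (R P + c.val • T3 hi) - (R P + c.val • T3 hi) =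
          (ah hi a σ (R P) - R P) + (ah hi a σ (c.val • T3 hi) - c.val • T3 hi) := by
        rw [map_add]
        abel
      rw [h5, h4]
      abel
    rw [← h3]
    exact ⟨h1, _, h2⟩
  have hinj : Function.Injective (fun x : Q × ZMod 3 =>
      (⟨fun σ => h x.1.out σ - x.2 * a σ, hmem _ _⟩ : KumH hi a)) := by
    rintro ⟨q, c⟩ ⟨q', c'⟩ hxy
    have h1 : ∀ σ, h q.out σ - c * a σ = h q'.out σ - c' * a σ := fun σ =>
      congrFun (Subtype.ext_iff.1 hxy) σ
    have h2 : q = q' := by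
      rw [← Quotient.out_eq q, ← Quotient.out_eq q']
      exact Quotient.sound ⟨c - c', fun σ => by linear_combination h1 σ⟩
    subst h2
    obtain ⟨σ, hσ⟩ := hne
    have h3 : (c - c') * a σ = 0 := by linear_combination -(h1 σ)
    have h4 : c = c' := sub_eq_zero.1 ((mul_eq_zero.1 h3).resolve_right hσ)
    rw [h4]
  have hfinS : Finite (KumH hi a) := hfin
  have hfinQ3 : Finite (Q × ZMod 3) := Finite.of_injective _ hinj
  have hfinQ : Finite Q := Finite.of_injective (fun q : Q => ((q, 0) : Q × ZMod 3))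
    fun q q' h => (Prod.mk.inj h).1
  have hcard : Nat.card Q * 3 ≤ 3 ^ (r + 1) := by
    have h1 := Nat.card_le_card_of_injective _ hinj
    rw [Nat.card_prod, Nat.card_zmod, Nat.card_coe_set_eq] at h1
    exact h1.trans hr
  have hcQ : Nat.card Q ≤ 3 ^ r := by
    rw [pow_succ] at hcard
    omega
  -- representatives
  have hrep : ∀ P : AG hi a, ∃ (q : Q) (P' : AG hi a) (c : ZMod 3),
      P.1 = (q.out).1 + Pool.Agent.Y155.CT.dd hi P'.1 + tt QB c := by
    intro P
    obtain ⟨c, hc'⟩ : s.r P (Quotient.out (Quotient.mk s P)) :=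
      Quotient.exact (Quotient.out_eq (Quotient.mk s P)).symm
    obtain ⟨P₀, hP₀⟩ : ∃ P₀ : AG hi a, P₀ = Quotient.out (Quotient.mk s P) := ⟨_, rfl⟩
    rw [← hP₀] at hc'
    refine ⟨Quotient.mk s P, ⟨R P - R P₀ + c.val • T3 hi, fun σ => ?_⟩, -c, ?_⟩
    · have h1 := ah_nT3 hi a σ c
      have h2 : ah hi a σ (R P - R P₀ + c.val • T3 hi) =
          (ah hi a σ (R P) - R P) - (ah hi a σ (R P₀) - R P₀) +
          (ah hi a σ (c.val • T3 hi) - c.val • T3 hi) + (R P - R P₀ + c.val • T3 hi) := by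
        rw [map_add, map_sub]
        abel
      rw [h2, h1, hh, hh, hc' σ, tt_add]
      abel
    · show P.1 = (Quotient.out (Quotient.mk s P)).1 +
        Pool.Agent.Y155.CT.dd hi (R P - R P₀ + c.val • T3 hi) + tt QB (-c)
      rw [← hP₀, map_add, map_sub, map_nsmul, dd_T3, nsmul_tt, mul_one, ZMod.natCast_zmod_val,
        hR, hR, ← tt_neg]
      abel
  -- the reduction
  obtain ⟨g, hg1, hg2⟩ := quot_map (AG hi a)
  have hg3 : ∀ x : AG hi a, g ((3 : ℤ) • x) = 0 := by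
    intro x
    rw [map_zsmul]
    funext i
    show (3 : ℤ) • g x i = 0
    rw [zsmul_eq_mul]
    have : (((3 : ℤ) : ZMod 3)) = 0 := by decide
    rw [this, zero_mul]
  have htt : ∀ c : ZMod 3, g ⟨tt QB c, tt_mem c⟩ = 0 := fun c =>
    hg2 _ 3 three_ne_zero (Subtype.ext (three_tt c))
  have hsurj : Function.Surjective (fun x : Q × Q =>
      g x.1.out + g ⟨Pool.Agent.Y155.CT.dd hi x.2.out.1, dd_mem x.2.out.2⟩) := by
    intro y
    obtain ⟨P, rfl⟩ := hg1 y
    obtain ⟨q, P', c, h1⟩ := hrep P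
    obtain ⟨q', P'', c', h2⟩ := hrep P'
    refine ⟨(q, q'), ?_⟩
    have h3 : P = q.out + ⟨Pool.Agent.Y155.CT.dd hi q'.out.1, dd_mem q'.out.2⟩ +
        (-((3 : ℤ) • ⟨im (isE QB) hi P''.1, im_mem P''.2⟩)) + ⟨tt QB c, tt_mem c⟩ := by
      apply Subtype.ext
      show P.1 = q.out.1 + Pool.Agent.Y155.CT.dd hi q'.out.1 +
        (-((3 : ℤ) • im (isE QB) hi P''.1)) + tt QB c
      have h4 : Pool.Agent.Y155.CT.dd hi P'.1 = Pool.Agent.Y155.CT.dd hi q'.out.1 +
          (-((3 : ℤ) • im (isE QB) hi P''.1)) := by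
        rw [h2, map_add, map_add, dd_tt, add_zero, dd_dd, map_nsmul]
        norm_cast
      rw [h1, h4]
      abel
    show g q.out + g ⟨Pool.Agent.Y155.CT.dd hi q'.out.1, dd_mem q'.out.2⟩ = g P
    rw [h3, map_add, map_add, map_add, map_neg, hg3, htt, neg_zero, add_zero, add_zero]
  have h1 := Nat.card_le_card_of_surjective _ hsurj
  rw [Nat.card_prod, Nat.card_fun, Nat.card_zmod, Nat.card_fin] at h1
  have h2 : 3 ^ Module.finrank ℤ (AG hi a) ≤ 3 ^ (2 * r) := by
    calc 3 ^ Module.finrank ℤ (AG hi a) ≤ Nat.card Q * Nat.card Q := h1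
      _ ≤ 3 ^ r * 3 ^ r := Nat.mul_le_mul hcQ hcQ
      _ = 3 ^ (2 * r) := by rw [← pow_add]; congr 1; ring
  exact (Nat.pow_le_pow_iff_right (by norm_num)).1 h2

lemma jj_add {F : Type} [Field F] [Algebra ℚ F] [CharZero F] {I : F}
    (hI : I ^ 2 + I + 1 = 0) (c : ZMod 3) (P Q : Pt F) :
    jj hI c (P + Q) = jj hI c P + jj hI c Q := by
  unfold jj
  exact iterate_map_add (im (isE F) hI) c.val P Q

lemma selH_add {h h' : GK i₀ → ZMod 3} (H : h ∈ SelH hi a) (H' : h' ∈ SelH hi a) :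
    (fun σ => h σ + h' σ) ∈ SelH hi a := by
  obtain ⟨h1, h2, h3⟩ := H
  obtain ⟨h1', h2', h3'⟩ := H'
  refine ⟨h1.add h1', fun σ τ => ?_, fun p _ ι => ?_⟩
  · show h (σ * τ) + h' (σ * τ) = h σ + h' σ + (h τ + h' τ)
    rw [h2, h2']
    ring
  · obtain ⟨R, hR⟩ := h3 p ι
    obtain ⟨R', hR'⟩ := h3' p ι
    refine ⟨R + R', fun τ σ hc => ?_⟩
    have e1 := hR τ σ hc
    have e2 := hR' τ σ hc
    show _ = tt _ (h σ + h' σ)
    rw [tt_add, ← e1, ← e2, map_add, jj_add]
    abel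

lemma selH_nsmul {h : GK i₀ → ZMod 3} (H : h ∈ SelH hi a) (n : ℕ) (hn : n ≠ 0) :
    (fun σ => (n : ZMod 3) * h σ) ∈ SelH hi a := by
  induction n with
  | zero => exact absurd rfl hn
  | succ n ih =>
    rcases Nat.eq_zero_or_pos n with h0 | h0
    · subst h0
      have e : (fun σ => ((0 + 1 : ℕ) : ZMod 3) * h σ) = h := by
        funext σ
        push_cast
        ring
      rw [e]
      exact H
    · have e : (fun σ => ((n + 1 : ℕ) : ZMod 3) * h σ) = fun σ => (n : ZMod 3) * h σ + h σ := by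
        funext σ
        push_cast
        ring
      rw [e]
      exact selH_add (ih (by omega)) H

lemma kumH_add {h h' : GK i₀ → ZMod 3} (H : h ∈ KumH hi a) (H' : h' ∈ KumH hi a) :
    (fun σ => h σ + h' σ) ∈ KumH hi a := by
  obtain ⟨h1, R, hR⟩ := H
  obtain ⟨h1', R', hR'⟩ := H'
  refine ⟨selH_add h1 h1', R + R', fun σ => ?_⟩
  rw [tt_add, ← hR, ← hR', map_add]
  abel

lemma kumH_nsmul {h : GK i₀ → ZMod 3} (H : h ∈ KumH hi a) (n : ℕ) (hn : n ≠ 0) :
    (fun σ => (n : ZMod 3) * h σ) ∈ KumH hi a := by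
  obtain ⟨h1, R, hR⟩ := H
  refine ⟨selH_nsmul h1 n hn, n • R, fun σ => ?_⟩
  rw [map_nsmul, ← nsmul_sub, hR, nsmul_tt]

/-- a Selmer character which does not come from a point makes the rank smaller -/
theorem kum_all (ha : ∀ σ τ, a (σ * τ) = a σ + a τ) (hc : IsLocallyConstant a)
    (hne : ∃ σ, a σ ≠ 0) {r : ℕ} (hr : (SelH hi a).ncard = 3 ^ (r + 1))
    (hrk : 2 * r ≤ Module.finrank ℤ (AG hi a)) (hr0 : r ≠ 0) :
    ∀ h ∈ SelH hi a, h ∈ KumH hi a := by
  by_contra hcon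
  push Not at hcon
  obtain ⟨h0, hS, hK⟩ := hcon
  have hfin : (SelH hi a).Finite := Set.finite_of_ncard_ne_zero (by rw [hr]; positivity)
  have hfinS : Finite (SelH hi a) := hfin
  have hfinK : (KumH hi a).Finite := hfin.subset fun h hh => hh.1
  have hmul : ∀ (h : KumH hi a) (c : ZMod 3), (fun σ => h.1 σ + c * h0 σ) ∈ SelH hi a := by
    intro h c
    have h1 := selH_nsmul hS (c.val + 3) (by omega)
    have e : (fun σ => ((c.val + 3 : ℕ) : ZMod 3) * h0 σ) = fun σ => c * h0 σ := by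
      funext σ
      congr 1
      push_cast
      rw [ZMod.natCast_zmod_val]
      have : (3 : ZMod 3) = 0 := by decide
      rw [this, add_zero]
    rw [e] at h1
    exact selH_add h.2.1 h1
  have hinj : Function.Injective (fun x : KumH hi a × ZMod 3 =>
      (⟨fun σ => x.1.1 σ + x.2 * h0 σ, hmul _ _⟩ : SelH hi a)) := by
    rintro ⟨h, c⟩ ⟨h', c'⟩ hxy
    have h1 : ∀ σ, h.1 σ + c * h0 σ = h'.1 σ + c' * h0 σ := fun σ =>
      congrFun (Subtype.ext_iff.1 hxy) σ
    by_cases hcc : c = c'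
    · subst hcc
      have h2 : h = h' := Subtype.ext (funext fun σ => by
        have := h1 σ
        exact add_right_cancel this)
      rw [h2]
    · exfalso
      apply hK
      -- `h0 = (c - c')⁻¹ (h' - h)`
      obtain ⟨d, hd0, hd⟩ : ∃ d : ℕ, d ≠ 0 ∧ (d : ZMod 3) * (c - c') = 1 := by
        have key : ∀ x y : ZMod 3, x ≠ y → ∃ d : ℕ, d ≠ 0 ∧ (d : ZMod 3) * (x - y) = 1 := by
          intro x y hxy
          have h2 : ∀ z : ZMod 3, z ≠ 0 → z = 1 ∨ z = 2 := by decide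
          rcases h2 (x - y) (sub_ne_zero.2 hxy) with h3 | h3
          · exact ⟨1, one_ne_zero, by rw [h3]; decide⟩
          · exact ⟨2, two_ne_zero, by rw [h3]; decide⟩
        exact key c c' hcc
      have h3 := kumH_nsmul (kumH_add h'.2 (kumH_nsmul h.2 2 two_ne_zero)) d hd0
      have e : (fun σ => (d : ZMod 3) * (h'.1 σ + ((2 : ℕ) : ZMod 3) * h.1 σ)) = h0 := by
        funext σ
        have h4 := h1 σ
        have h5 : (3 : ZMod 3) = 0 := by decide
        push_cast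
        linear_combination (-(d : ZMod 3)) * h4 + h0 σ * hd + (d : ZMod 3) * h.1 σ * h5
      rw [e] at h3
      exact h3
  have hcard := Nat.card_le_card_of_injective _ hinj
  rw [Nat.card_prod, Nat.card_zmod, Nat.card_coe_set_eq, Nat.card_coe_set_eq, hr] at hcard
  obtain ⟨r', rfl⟩ := Nat.exists_eq_succ_of_ne_zero hr0
  have h1 : (KumH hi a).ncard ≤ 3 ^ (r' + 1) := by
    have e : 3 ^ (r'.succ + 1) = 3 ^ (r' + 1) * 3 := by
      rw [Nat.succ_eq_add_one, pow_succ]
    rw [e] at hcard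
    omega
  have h2 := rank_le' ha hc hne hfinK h1
  have h3 : r'.succ = r' + 1 := rfl
  omega

end

end Pool.Agent.R419.MX
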